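import Pool.Agent.H721R2.Ivrii.Def

set_option autoImplicit false

open Set Filter Topology
open scoped InnerProductSpace
open Pool.Agent.H721R2.Ivrii

namespace Pool.Agent.Q66.IV

/-- The position of the bounce `k` in the weighted path: the sides have the lengths
`L j / (a j * a (j + 1))`. -/
noncomputable def res (L a : ℕ → ℝ) (k : ℕ) : ℝ := ∑ j ∈ Finset.range k, L j / (a j * a (j + 1))

/-- The masses `V k` at the positions `s k`, `0 < k < n`, are too small for a Dirichlet solution
on `[0, s n]` or, if `par` holds, for every point `t` too small for one on `[0, t]` or too small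
for one on `[t, s n]`. -/
def Small (par : Prop) (n : ℕ) (s V : ℕ → ℝ) : Prop :=
  ∑ k ∈ Finset.Ioo 0 n, V k * (s k * (s n - s k)) < s n ∨
    (par ∧ ∀ t, 0 < t → t < s n →
      ∑ k ∈ (Finset.Ioo 0 n).filter (fun k => s k < t), V k * (s k * (t - s k)) < t ∨
      ∑ k ∈ (Finset.Ioo 0 n).filter (fun k => t < s k), V k * ((s k - t) * (s n - s k)) < s n - t)

variable {E : Type*} [NormedAddCommGroup E] [InnerProductSpace ℝ E] [CompleteSpace E]

/-- The bounce at the boundary point `q` with outgoing unit velocity `u` is focusing with strength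
at least `β`. (In the plane, at a boundary point of curvature `κ`, positive for a convex table,
where the trajectory makes the angle `θ` with the tangent, this is `2 κ / sin θ ≥ β`.) -/
def FocGe (Ω : Set E) (q u : E) (β : ℝ) : Prop :=
  ∃ F : E → ℝ, LocalDef Ω q F ∧ ∀ w : E, ⟪gradient F q, w⟫_ℝ = 0 →
    β * ‖gradient F q‖ ^ 2 * (‖w‖ ^ 2 - ⟪u, w⟫_ℝ ^ 2) ≤
      2 * |⟪gradient F q, u⟫_ℝ| * fderiv ℝ (fderiv ℝ F) q w w

/-- The length of the side from the bounce `k` to the bounce `k + 1`. -/
noncomputable def side (p : ℕ → E) (k : ℕ) : ℝ := ‖p (k + 1) - p k‖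

/-- The defect of focusing at the bounce `k`, for the weights `a`, the focusing being at
least `β k`. -/
noncomputable def defect (p : ℕ → E) (a β : ℕ → ℝ) (k : ℕ) : ℝ :=
  max 0 (a k * ((a (k - 1) + a k) / side p (k - 1) + (a k + a (k + 1)) / side p k - β k * a k))

/-- The orientation condition: in the plane `g` preserves the orientation. -/
def Orient (g : E ≃ᵃⁱ[ℝ] E) (n : ℕ) : Prop :=
  LinearMap.det (g.linearIsometryEquiv.toLinearEquiv : E →ₗ[ℝ] E) *
    (-1) ^ (n * Module.finrank ℝ E) = (-1) ^ Module.finrank ℝ E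

/-- A path with `n` sides and strong focusing at the bounces `1, …, n - 1`: for some positive
weights `a` and numbers `β` not larger than the focusing, the defects are small. -/
def StrongPath (Ω : Set E) (par : Prop) (n : ℕ) (p u : ℕ → E) : Prop :=
  ∃ a β : ℕ → ℝ, (∀ k ≤ n, 0 < a k) ∧ (∀ k, 0 < k → k < n → FocGe Ω (p k) (u k) (β k)) ∧
    Small par n (res (side p) a) (defect p a β)

/-- The phase points whose billiard trajectory is periodic modulo some isometry `g ∈ Γ` and such
that, for some bounce `i`, the path from this bounce to its image under `g` has strong focusing. -/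
def StrongPer (Γ : Set (E ≃ᵃⁱ[ℝ] E)) (Ω : Set E) : Set (E × E) :=
  {z | ∃ g ∈ Γ, ∃ (n : ℕ) (p u : ℕ → E) (i : ℕ), OrbitMod Ω g n p u ∧ (p 0, u 0) = z ∧ i < n ∧
    StrongPath Ω (Orient g n) n (fun k => p (k + i)) (fun k => u (k + i))}

/-- The bounce `k` is strongly focusing with respect to the weights `a` (for `a = 1`: the focusing
is at least `2 / l + 2 / l'` where `l` and `l'` are the lengths of the two sides). -/
def StrongAt (Ω : Set E) (p u : ℕ → E) (a : ℕ → ℝ) (k : ℕ) : Prop :=
  FocGe Ω (p k) (u k)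
    (((a (k - 1) + a k) / side p (k - 1) + (a k + a (k + 1)) / side p k) / a k)

/-- The phase points whose billiard trajectory is periodic modulo some isometry `g ∈ Γ`, with
strong focusing, for some positive weights, at all bounces except one of a period and, if the
orientation condition holds, another one. -/
def FewWeak (Γ : Set (E ≃ᵃⁱ[ℝ] E)) (Ω : Set E) : Set (E × E) :=
  {z | ∃ g ∈ Γ, ∃ (n : ℕ) (p u : ℕ → E) (a : ℕ → ℝ) (i j : ℕ), OrbitMod Ω g n p u ∧
    (p 0, u 0) = z ∧ (∀ k, 0 < a k) ∧ i < n ∧
    ((∀ k, 0 < k → k % n ≠ i → StrongAt Ω p u a k) ∨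
      (Orient g n ∧ ∀ k, 0 < k → k % n ≠ i → k % n ≠ j → StrongAt Ω p u a k))}

/-- The phase points whose billiard trajectory is periodic modulo some isometry `g ∈ Γ` such that,
off some bounce `i`, the length of the path of a period times the sum of the defects of focusing,
for the weights `1`, is less than `4`, or less than `16` if the orientation condition holds. -/
def TotDef (Γ : Set (E ≃ᵃⁱ[ℝ] E)) (Ω : Set E) : Set (E × E) :=
  {z | ∃ g ∈ Γ, ∃ (n : ℕ) (p u : ℕ → E) (i : ℕ) (β : ℕ → ℝ), OrbitMod Ω g n p u ∧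
    (p 0, u 0) = z ∧ i < n ∧
    (∀ k, 0 < k → k < n → FocGe Ω (p (k + i)) (u (k + i)) (β k)) ∧
    ((∑ k ∈ Finset.range n, side p (k + i)) * ∑ k ∈ Finset.Ioo 0 n,
        max 0 (2 / side p (k + i - 1) + 2 / side p (k + i) - β k) < 4 ∨
      (Orient g n ∧ (∑ k ∈ Finset.range n, side p (k + i)) * ∑ k ∈ Finset.Ioo 0 n,
        max 0 (2 / side p (k + i - 1) + 2 / side p (k + i) - β k) < 16))}

end Pool.Agent.Q66.IV
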