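import Pool.Agent.TH318.IvI
import Pool.Agent.Q66.IV.IvDef

set_option autoImplicit false

open MeasureTheory Set Filter Topology
open scoped InnerProductSpace
open Pool.Agent.TH318.Iv

namespace Pool.Agent.Q66.IV

theorem two_pieces {VL VR x y S : ℝ} (hx : 0 < x) (hy : 0 < y) (hS : S = x + y)
    (h0 : 0 ≤ VL) (h0' : 0 ≤ VR) (hw : S * (VL + VR) < 16) :
    VL * (x * x / 4) < x ∨ VR * (y * y / 4) < y := by
  by_contra hcon
  push Not at hcon
  obtain ⟨h1, h2⟩ := hcon
  have e1 : 4 ≤ VL * x := by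
    have : x * 4 ≤ x * (VL * x) := by nlinarith
    exact le_of_mul_le_mul_left this hx
  have e2 : 4 ≤ VR * y := by
    have : y * 4 ≤ y * (VR * y) := by nlinarith
    exact le_of_mul_le_mul_left this hy
  have e3 : 16 ≤ (VL * y) * (VR * x) := by nlinarith
  have e4 : 0 ≤ VL * y := mul_nonneg h0 hy.le
  have e5 : 0 ≤ VR * x := mul_nonneg h0' hx.le
  have e6 : 8 ≤ VL * y + VR * x := by nlinarith [sq_nonneg (VL * y - VR * x)]
  subst hS
  nlinarith

/-- The criterion with the constant `16`. -/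
theorem small_tot {par : Prop} {n : ℕ} {s V : ℕ → ℝ} (hpar : par)
    (hV : ∀ k, 0 < k → k < n → 0 ≤ V k)
    (h : s n * ∑ k ∈ Finset.Ioo 0 n, V k < 16) : Small par n s V := by
  refine Or.inr ⟨hpar, fun t ht0 ht1 => ?_⟩
  have hdisj : ∑ k ∈ (Finset.Ioo 0 n).filter (fun k => s k < t), V k +
      ∑ k ∈ (Finset.Ioo 0 n).filter (fun k => t < s k), V k ≤ ∑ k ∈ Finset.Ioo 0 n, V k := by
    rw [← Finset.sum_union]
    · refine Finset.sum_le_sum_of_subset_of_nonneg ?_ ?_
      · intro k hk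
        rw [Finset.mem_union, Finset.mem_filter, Finset.mem_filter] at hk
        rcases hk with hk | hk
        · exact hk.1
        · exact hk.1
      · intro k hk _
        rw [Finset.mem_Ioo] at hk
        exact hV k hk.1 hk.2
    · rw [Finset.disjoint_left]
      intro k hk hk'
      rw [Finset.mem_filter] at hk hk'
      linarith [hk.2, hk'.2]
  have hVL : 0 ≤ ∑ k ∈ (Finset.Ioo 0 n).filter (fun k => s k < t), V k := by
    refine Finset.sum_nonneg fun k hk => ?_
    rw [Finset.mem_filter, Finset.mem_Ioo] at hk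
    exact hV k hk.1.1 hk.1.2
  have hVR : 0 ≤ ∑ k ∈ (Finset.Ioo 0 n).filter (fun k => t < s k), V k := by
    refine Finset.sum_nonneg fun k hk => ?_
    rw [Finset.mem_filter, Finset.mem_Ioo] at hk
    exact hV k hk.1.1 hk.1.2
  rcases two_pieces ht0 (sub_pos.2 ht1) (by ring) hVL hVR
    (lt_of_le_of_lt (mul_le_mul_of_nonneg_left hdisj (by linarith)) h) with h5 | h5
  · left
    refine lt_of_le_of_lt ?_ h5
    rw [Finset.sum_mul]
    refine Finset.sum_le_sum fun k hk => ?_
    rw [Finset.mem_filter, Finset.mem_Ioo] at hk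
    refine mul_le_mul_of_nonneg_left ?_ (hV k hk.1.1 hk.1.2)
    nlinarith [sq_nonneg (s k - t / 2)]
  · right
    refine lt_of_le_of_lt ?_ h5
    rw [Finset.sum_mul]
    refine Finset.sum_le_sum fun k hk => ?_
    rw [Finset.mem_filter, Finset.mem_Ioo] at hk
    refine mul_le_mul_of_nonneg_left ?_ (hV k hk.1.1 hk.1.2)
    nlinarith [sq_nonneg (s k - (t + s n) / 2)]

/-- No masses. -/
theorem small_zero {par : Prop} {n : ℕ} {s V : ℕ → ℝ} (hs : 0 < s n)
    (hV : ∀ k, 0 < k → k < n → V k = 0) : Small par n s V := by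
  refine Or.inl ?_
  rw [Finset.sum_eq_zero]
  · exact hs
  · intro k hk
    rw [Finset.mem_Ioo] at hk
    rw [hV k hk.1 hk.2, zero_mul]

/-- One mass. -/
theorem small_one {par : Prop} {n : ℕ} {s V : ℕ → ℝ} (hpar : par) (m : ℕ)
    (hV : ∀ k, 0 < k → k < n → k ≠ m → V k = 0) : Small par n s V := by
  refine Or.inr ⟨hpar, fun t ht0 ht1 => ?_⟩
  rcases lt_or_ge (s m) t with hm | hm
  · right
    rw [Finset.sum_eq_zero]
    · exact sub_pos.2 ht1
    · intro k hk
      rw [Finset.mem_filter, Finset.mem_Ioo] at hk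
      rw [hV k hk.1.1 hk.1.2, zero_mul]
      rintro rfl
      linarith [hk.2]
  · left
    rw [Finset.sum_eq_zero]
    · exact ht0
    · intro k hk
      rw [Finset.mem_filter, Finset.mem_Ioo] at hk
      rw [hV k hk.1.1 hk.1.2, zero_mul]
      rintro rfl
      linarith [hk.2]

theorem small_congr {par par' : Prop} {n : ℕ} {s s' V : ℕ → ℝ} (hs : ∀ k ≤ n, s' k = s k)
    (hp : par → par') (h : Small par n s V) : Small par' n s' V := by
  have hn := hs n le_rfl
  have h1 : ∀ k ∈ Finset.Ioo 0 n, s' k = s k := fun k hk => hs k (Finset.mem_Ioo.1 hk).2.le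
  rcases h with h | ⟨hpar, h⟩
  · left
    rw [hn]
    refine lt_of_le_of_lt (le_of_eq ?_) h
    exact Finset.sum_congr rfl fun k hk => by rw [h1 k hk]
  · right
    refine ⟨hp hpar, fun t ht0 ht1 => ?_⟩
    rw [hn] at ht1 ⊢
    have e1 : (Finset.Ioo 0 n).filter (fun k => s' k < t) =
        (Finset.Ioo 0 n).filter (fun k => s k < t) :=
      Finset.filter_congr fun k hk => by rw [h1 k hk]
    have e2 : (Finset.Ioo 0 n).filter (fun k => t < s' k) =
        (Finset.Ioo 0 n).filter (fun k => t < s k) :=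
      Finset.filter_congr fun k hk => by rw [h1 k hk]
    rw [e1, e2]
    refine (h t ht0 ht1).imp (fun h2 => ?_) fun h2 => ?_
    · refine lt_of_le_of_lt (le_of_eq ?_) h2
      exact Finset.sum_congr rfl fun k hk => by rw [h1 k (Finset.mem_filter.1 hk).1]
    · refine lt_of_le_of_lt (le_of_eq ?_) h2
      exact Finset.sum_congr rfl fun k hk => by rw [h1 k (Finset.mem_filter.1 hk).1]

theorem core {W : Type*} [NormedAddCommGroup W] [InnerProductSpace ℝ W] [FiniteDimensional ℝ W]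
    {N : ℕ} (hN : 0 < N) (L a V : ℕ → ℝ) (hL : ∀ k < N, 0 < L k) (ha : ∀ k ≤ N, 0 < a k)
    (A B : ℕ → W →ₗ[ℝ] W) (A0 : A 0 = 0) (B0 : B 0 = LinearMap.id)
    (step : ∀ k < N, A (k + 1) = A k + L k • B k) (AN : A N = 0)
    (hnB : ∀ δ, ‖B (N - 1) δ‖ = ‖δ‖) (hW : 0 < Module.finrank ℝ W)
    (kick : ∀ k, k + 1 < N → 0 ≤ V (k + 1) ∧ ∀ δ,
      a (k + 1) * ((a k + a (k + 1)) / L k + (a (k + 1) + a (k + 1 + 1)) / L (k + 1)) *
          ‖A (k + 1) δ‖ ^ 2 -
        a (k + 1) ^ 2 * (⟪A (k + 1) δ, B k δ⟫_ℝ - ⟪A (k + 1) δ, B (k + 1) δ⟫_ℝ) ≤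
        V (k + 1) * ‖A (k + 1) δ‖ ^ 2)
    (h : Small ((-1) ^ Module.finrank ℝ W *
          ((-1) ^ (N * Module.finrank ℝ W) * LinearMap.det (B (N - 1))) ≤ 0) N (res L a) V) :
    False := by
  obtain ⟨L', hL'd⟩ : ∃ L' : ℕ → ℝ, L' = fun k => L k / (a k * a (k + 1)) := ⟨_, rfl⟩
  obtain ⟨A', hA'⟩ : ∃ A' : ℕ → W →ₗ[ℝ] W,
      ∀ k, A' k = ((-1) ^ (k + 1) / (a k * a 0)) • A k := ⟨_, fun k => rfl⟩
  obtain ⟨B', hB'⟩ : ∃ B' : ℕ → W →ₗ[ℝ] W,
      ∀ k, B' k = ((-1) ^ k / a 0) • (((a k + a (k + 1)) / L k) • A (k + 1) - a (k + 1) • B k) :=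
    ⟨_, fun k => rfl⟩
  have ha0 := ha 0 (Nat.zero_le _)
  have hL' : ∀ k < N, 0 < L' k := by
    intro k hk
    rw [hL'd]
    exact div_pos (hL k hk) (mul_pos (ha k hk.le) (ha (k + 1) hk))
  have hres : ∀ k, ∑ j ∈ Finset.range k, L' j = res L a k := by
    intro k; rw [hL'd]; rfl
  have A0' : A' 0 = 0 := by rw [hA', A0, smul_zero]
  have AN' : A' N = 0 := by rw [hA', AN, smul_zero]
  have step' : ∀ k < N, A' (k + 1) = A' k + L' k • B' k := by
    intro k hk
    have h1 := (hL k hk).ne'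
    have h2 := (ha k hk.le).ne'
    have h3 := (ha (k + 1) hk).ne'
    rw [hA', hA', hB', hL'd, step k hk]
    simp only
    rw [pow_succ, pow_succ]
    match_scalars <;> field_simp <;> ring
  have B0' : B' 0 = LinearMap.id := by
    have h1 := (hL 0 hN).ne'
    have h2 := (ha 1 hN).ne'
    rw [hB', step 0 hN, A0, B0]
    simp only [zero_add, pow_zero]
    have h4 := ha0.ne'
    match_scalars
    field_simp
    ring
  have BN' : B' (N - 1) = ((-1) ^ N * (a N / a 0)) • B (N - 1) := by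
    have h1 : N - 1 + 1 = N := by omega
    have h2 : (-1 : ℝ) ^ N = (-1) ^ (N - 1) * (-1) := by
      rw [← pow_succ, h1]
    rw [hB', h1, AN, h2]
    have h4 := ha0.ne'
    match_scalars
    field_simp
  -- the kicks
  have kick' : ∀ k, k + 1 < N → ∀ δ, 0 ≤ V (k + 1) ∧
      ⟪A' (k + 1) δ, B' k δ⟫_ℝ - V (k + 1) * ‖A' (k + 1) δ‖ ^ 2 ≤
        ⟪A' (k + 1) δ, B' (k + 1) δ⟫_ℝ := by
    intro k hk δ
    obtain ⟨hV, hkk⟩ := kick k hk
    refine ⟨hV, ?_⟩
    have h1 := hL k (by omega)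
    have h2 := hL (k + 1) hk
    have h3 := ha k (by omega)
    have h4 := ha (k + 1) (by omega)
    have h5 := ha (k + 1 + 1) (by omega)
    have hk1 := hkk δ
    have est : A (k + 1 + 1) δ = A (k + 1) δ + L (k + 1) • B (k + 1) δ := by
      rw [step (k + 1) hk]; rfl
    have hsq : ((-1 : ℝ) ^ k) ^ 2 = 1 := by rw [← pow_mul, mul_comm, pow_mul]; norm_num
    obtain ⟨X, hX⟩ : ∃ X, X = A (k + 1) δ := ⟨_, rfl⟩
    obtain ⟨D, hD⟩ : ∃ D, D = B k δ := ⟨_, rfl⟩
    obtain ⟨D', hD'⟩ : ∃ D', D' = B (k + 1) δ := ⟨_, rfl⟩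
    obtain ⟨ε, hε⟩ : ∃ ε : ℝ, ε = (-1) ^ k := ⟨_, rfl⟩
    rw [← hε] at hsq
    have e1 : A' (k + 1) δ = (ε / (a (k + 1) * a 0)) • X := by
      rw [hA', hX, hε, pow_succ, pow_succ]
      simp only [LinearMap.smul_apply]
      congr 1
      ring
    have e2 : B' k δ = (ε / a 0) • (((a k + a (k + 1)) / L k) • X - a (k + 1) • D) := by
      rw [hB', hX, hD, hε]; rfl
    have e3 : B' (k + 1) δ = (-ε / a 0) • (((a (k + 1) + a (k + 1 + 1)) / L (k + 1)) • X +
        a (k + 1) • D') := by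
      rw [hB']
      simp only [LinearMap.smul_apply, LinearMap.sub_apply]
      rw [est, ← hX, ← hD', pow_succ, ← hε]
      have := h2.ne'
      match_scalars <;> field_simp <;> ring
    rw [← hX, ← hD, ← hD'] at hk1
    rw [e1, e2, e3, norm_smul, mul_pow, Real.norm_eq_abs, sq_abs]
    simp only [real_inner_smul_left, real_inner_smul_right, inner_sub_right, inner_add_right,
      real_inner_self_eq_norm_sq]
    have hf : 0 < 1 / (a (k + 1) ^ 2 * a 0 ^ 2) := by positivity
    have h6 := mul_le_mul_of_nonneg_left hk1 hf.le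
    have e4 : ε / (a (k + 1) * a 0) * (ε / a 0 * ((a k + a (k + 1)) / L k * ‖X‖ ^ 2 -
        a (k + 1) * ⟪X, D⟫_ℝ)) - V (k + 1) * ((ε / (a (k + 1) * a 0)) ^ 2 * ‖X‖ ^ 2) -
        ε / (a (k + 1) * a 0) * (-ε / a 0 * ((a (k + 1) + a (k + 1 + 1)) / L (k + 1) * ‖X‖ ^ 2 +
          a (k + 1) * ⟪X, D'⟫_ℝ)) =
        ε ^ 2 * (1 / (a (k + 1) ^ 2 * a 0 ^ 2) *
          (a (k + 1) * ((a k + a (k + 1)) / L k + (a (k + 1) + a (k + 1 + 1)) / L (k + 1)) *
          ‖X‖ ^ 2 - a (k + 1) ^ 2 * (⟪X, D⟫_ℝ - ⟪X, D'⟫_ℝ)) -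
          1 / (a (k + 1) ^ 2 * a 0 ^ 2) * (V (k + 1) * ‖X‖ ^ 2)) := by
      have := h1.ne'
      have := h2.ne'
      have := h4.ne'
      have := ha0.ne'
      field_simp
      ring
    rw [hsq, one_mul] at e4
    linarith
  obtain ⟨δ₀, hδ₀⟩ : ∃ δ : W, δ ≠ 0 := by
    haveI := Module.nontrivial_of_finrank_pos hW
    exact exists_ne 0
  have sV : ∀ k, 0 < k → k < N → 0 ≤ V k := by
    intro k h1 h2
    obtain ⟨j, rfl⟩ : ∃ j, k = j + 1 := ⟨k - 1, by omega⟩
    exact (kick j h2).1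
  rcases h with h | ⟨hdet, hw⟩
  · have h2 := broken L' V (fun k => A' k δ₀) (fun k => B' k δ₀) (N := N)
      (fun k hk => (hL' k hk).le) (by rw [A0']; rfl) (by rw [AN']; rfl)
      (fun k hk => by rw [step' k hk]; rfl) (fun k hk => kick' k hk δ₀)
      (by simp only [hres]; exact h) 0 hN (hL' 0 hN)
    rw [B0'] at h2
    exact hδ₀ h2
  · have hdet' : (-1) ^ Module.finrank ℝ W * LinearMap.det (B' (N - 1)) ≤ 0 := by
      rw [BN', LinearMap.det_smul, mul_pow, ← pow_mul]
      have h3 : 0 < (a N / a 0) ^ Module.finrank ℝ W := pow_pos (div_pos (ha N le_rfl) ha0) _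
      have h4 : (-1 : ℝ) ^ Module.finrank ℝ W * ((-1) ^ (N * Module.finrank ℝ W) *
          (a N / a 0) ^ Module.finrank ℝ W * LinearMap.det (B (N - 1))) =
          (a N / a 0) ^ Module.finrank ℝ W * ((-1) ^ Module.finrank ℝ W *
          ((-1) ^ (N * Module.finrank ℝ W) * LinearMap.det (B (N - 1)))) := by ring
      rw [h4]
      exact mul_nonpos_of_nonneg_of_nonpos h3.le hdet
    obtain ⟨m, hm, τ, hτ0, hτ1, hτ2, δ, hδ, hδz⟩ :=
      exists_conj hN L' hL' A' B' A0' B0' step' AN' hdet'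
    obtain ⟨s, hs⟩ : ∃ s : ℕ → ℝ, ∀ k, s k = res L a k := ⟨_, fun k => rfl⟩
    have hs1 : ∀ k, s (k + 1) = s k + L' k := by
      intro k; rw [hs, hs, ← hres, ← hres, Finset.sum_range_succ]
    have smono : ∀ a b, a ≤ b → b ≤ N → s a ≤ s b := by
      intro a b hab hb
      rw [hs, hs, ← hres, ← hres]
      exact Finset.sum_le_sum_of_subset_of_nonneg (Finset.range_mono hab)
        fun j hj _ => (hL' j (by have := Finset.mem_range.1 hj; omega)).le
    have s0 : s 0 = 0 := by rw [hs, ← hres]; simp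
    have hsm0 : 0 ≤ s m := by
      have := smono 0 m (Nat.zero_le _) hm.le
      linarith
    have htN : s m + τ < s N := by
      rcases Nat.lt_or_ge (m + 1) N with h | h
      · have h2 := smono (m + 1 + 1) N h le_rfl
        have h3 := hs1 (m + 1)
        have h4 := hL' (m + 1) h
        have h5 := hs1 m
        linarith
      · have h2 : m + 1 = N := by omega
        have h3 := hs1 m
        have h4 := hτ2 h2
        rw [h2] at h3
        linarith
    obtain ⟨t, ht⟩ : ∃ t, t = s m + τ := ⟨_, rfl⟩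
    have ht0 : 0 < t := by rw [ht]; linarith
    have htS : 0 < s N - t := by rw [ht]; linarith
    have hsm : s m < t := by rw [ht]; linarith
    have htN' : t < s N := by linarith
    have hww := hw t ht0 (by rw [← hs]; exact htN')
    simp only [← hs] at hww
    rcases hww with h5 | h5
    · have h2 := broken_left L' V (fun k => A' k δ) (fun k => B' k δ) (m := m) hτ0
        (fun k hk => hL' k (by omega)) (by rw [A0']; rfl) hδz
        (fun k hk => by rw [step' k (by omega)]; rfl)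
        (fun k hk => kick' k (by omega) δ)
        (by
          simp only [hres, ← hs, ← ht]
          refine lt_of_le_of_lt ?_ h5
          refine Finset.sum_le_sum_of_subset_of_nonneg ?_ ?_
          · intro k hk
            rw [Finset.mem_Ioo] at hk
            rw [Finset.mem_filter, Finset.mem_Ioo]
            have := smono k m (by omega) hm.le
            exact ⟨⟨hk.1, by omega⟩, by linarith⟩
          · intro k hk _
            rw [Finset.mem_filter, Finset.mem_Ioo] at hk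
            have := smono 0 k (Nat.zero_le _) hk.1.2.le
            exact mul_nonneg (sV k hk.1.1 hk.1.2) (mul_nonneg (by linarith) (by linarith [hk.2])))
      rw [B0'] at h2
      exact hδ h2
    · have h2 := broken_right hm L' V (fun k => A' k δ) (fun k => B' k δ) hτ0 hτ1 hτ2
        hL' (by rw [AN']; rfl) hδz (fun k hk => by rw [step' k hk]; rfl)
        (fun k hk _ => kick' k hk δ)
        (by
          simp only [hres, ← hs, ← ht]
          exact h5)
      rw [BN'] at h2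
      simp only [LinearMap.smul_apply] at h2
      have h6 : (-1 : ℝ) ^ N * (a N / a 0) ≠ 0 :=
        mul_ne_zero (pow_ne_zero _ (by norm_num)) (div_pos (ha N le_rfl) ha0).ne'
      have h7 := (smul_eq_zero.1 h2).resolve_left h6
      have h8 := hnB δ
      rw [h7, norm_zero] at h8
      exact hδ (norm_eq_zero.1 h8.symm)

end Pool.Agent.Q66.IV
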