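import Pool.Agent.TH318.IvJ
import Pool.Agent.Q66.IV.IvA

set_option autoImplicit false

open MeasureTheory Set Filter Topology
open scoped InnerProductSpace
open Pool.Agent.H721R2.Quart Pool.Agent.H721R2.Ivrii Pool.Agent.TH746 Pool.Agent.TH318.Iv

namespace Pool.Agent.Q66.IV

section
variable {E : Type*} [NormedAddCommGroup E] [InnerProductSpace ℝ E] [FiniteDimensional ℝ E]

/-- The strength does not depend on the defining function. -/
theorem focGe_def {Ω : Set E} {q u : E} {β : ℝ} (h : FocGe Ω q u β) {F : E → ℝ}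
    (hF : LocalDef Ω q F) : ∀ w, ⟪gradient F q, w⟫_ℝ = 0 →
    β * ‖gradient F q‖ ^ 2 * (‖w‖ ^ 2 - ⟪u, w⟫_ℝ ^ 2) ≤
      2 * |⟪gradient F q, u⟫_ℝ| * fderiv ℝ (fderiv ℝ F) q w w := by
  obtain ⟨F', hF', h⟩ := h
  obtain ⟨l, hl, hg, hc⟩ := curv_rel hF hF'
  intro w hw
  have h1 := h w (by rw [hg, real_inner_smul_left, hw, mul_zero])
  rw [hc w hw, hg, real_inner_smul_left, abs_mul, abs_of_pos hl, norm_smul, Real.norm_eq_abs,
    abs_of_pos hl, mul_pow] at h1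
  have h2 : 0 < l ^ 2 := pow_pos hl 2
  by_contra hcon
  have h3 := mul_lt_mul_of_pos_left (not_le.1 hcon) h2
  linarith [h1, h3]

variable {Z : Type*} [NormedAddCommGroup Z] [NormedSpace ℝ Z]

/-- Strong focusing of the trajectory at `z`. -/
def BadD (C : Chn E Z) (z : Z) : Prop :=
  ∃ a β V : ℕ → ℝ, (∀ k ≤ C.N, 0 < a k) ∧
    (∀ k, k + 1 < C.N → ∀ w, ⟪C.n (k + 1) z, w⟫_ℝ = 0 →
      β (k + 1) * (‖w‖ ^ 2 - ⟪C.e k z, w⟫_ℝ ^ 2) ≤
        -(2 * ⟪C.n (k + 1) z, C.e k z⟫_ℝ * ⟪C.S (k + 1) z w, w⟫_ℝ)) ∧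
    (∀ k, k + 1 < C.N → 0 ≤ V (k + 1) ∧
      a (k + 1) * ((a k + a (k + 1)) / C.L k z + (a (k + 1) + a (k + 1 + 1)) / C.L (k + 1) z -
        β (k + 1) * a (k + 1)) ≤ V (k + 1)) ∧
    Small ((-1) ^ (C.N * Module.finrank ℝ E) * LinearMap.det (C.G : E →ₗ[ℝ] E) =
      (-1) ^ Module.finrank ℝ E) C.N (res (fun k => C.L k z) a) V

/-- At a point where all variations close the focusing is not strong. -/
theorem not_badD (hd : 2 ≤ Module.finrank ℝ E) (C : Chn E Z) {z : Z} (hz : z ∈ C.U)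
    (he : C.e C.N z = C.G (C.e 0 z)) (hn : C.n C.N z = C.G (C.n 0 z))
    (hX : ∀ ζ, fderiv ℝ (C.x C.N) z ζ = C.G (fderiv ℝ (C.x 0) z ζ))
    (hE : ∀ ζ, fderiv ℝ (C.e C.N) z ζ = C.G (fderiv ℝ (C.e 0) z ζ))
    (hn' : ∀ ζ, fderiv ℝ (C.n C.N) z ζ = C.G (fderiv ℝ (C.n 0) z ζ)) :
    ¬ BadD C z := by
  rintro ⟨a, β, V, ha, hβ, hV, hw⟩
  obtain ⟨σ, A, B, A0, B0, stp, AN, hdB, hnB, hk⟩ := unf C hz he hn hX hE hn'
  have hfr : Module.finrank ℝ (ℝ ∙ C.e 0 z)ᗮ + 1 = Module.finrank ℝ E := by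
    have h1 := Submodule.finrank_add_finrank_orthogonal (ℝ ∙ (C.e 0 z))
    have h2 : Module.finrank ℝ (ℝ ∙ (C.e 0 z)) = 1 := by
      refine finrank_span_singleton fun h0 => ?_
      have h6 := C.ee 0 C.hN z hz
      rw [h0, inner_zero_left] at h6
      exact zero_ne_one h6
    omega
  refine core C.hN (fun k => C.L k z) a V (fun k hk => C.Lpos k hk z hz) ha A B A0 B0
    (fun k hk => stp k hk) AN hnB (by omega) ?_ ?_
  · intro k hk'
    obtain ⟨hV0, hV1⟩ := hV k hk'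
    refine ⟨hV0, fun δ => ?_⟩
    obtain ⟨e1, e2, e3⟩ := hk k hk' δ
    have h1 := hβ k hk' _ e1
    rw [← e2] at h1
    have h2 := mul_le_mul_of_nonneg_right hV1 (sq_nonneg ‖A (k + 1) δ‖)
    have h3 : 0 ≤ a (k + 1) ^ 2 := sq_nonneg _
    have h4 := mul_le_mul_of_nonneg_left h1 h3
    have h5 : ⟪A (k + 1) δ, B k δ⟫_ℝ - ⟪A (k + 1) δ, B (k + 1) δ⟫_ℝ =
        -(2 * ⟪C.n (k + 1) z, C.e k z⟫_ℝ * ⟪C.S (k + 1) z (fderiv ℝ (C.x (k + 1)) z (σ δ)),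
            fderiv ℝ (C.x (k + 1)) z (σ δ)⟫_ℝ) := by
      rw [e3]; ring
    rw [h5]
    refine le_trans ?_ h2
    have h6 : a (k + 1) * ((a k + a (k + 1)) / C.L k z + (a (k + 1) + a (k + 1 + 1)) /
        C.L (k + 1) z - β (k + 1) * a (k + 1)) * ‖A (k + 1) δ‖ ^ 2 =
        a (k + 1) * ((a k + a (k + 1)) / C.L k z + (a (k + 1) + a (k + 1 + 1)) /
        C.L (k + 1) z) * ‖A (k + 1) δ‖ ^ 2 - a (k + 1) ^ 2 * (β (k + 1) * ‖A (k + 1) δ‖ ^ 2) := by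
      ring
    rw [h6]
    linarith
  · refine hw.imp id fun ⟨hpar, hw⟩ => ⟨?_, hw⟩
    rw [hdB]
    have h1 : (-1 : ℝ) ^ Module.finrank ℝ (ℝ ∙ C.e 0 z)ᗮ *
        ((-1) ^ (C.N * Module.finrank ℝ (ℝ ∙ C.e 0 z)ᗮ) *
          ((-1) ^ C.N * LinearMap.det (C.G : E →ₗ[ℝ] E))) =
        (-1) ^ Module.finrank ℝ (ℝ ∙ C.e 0 z)ᗮ * ((-1) ^ (C.N * Module.finrank ℝ E) *
          LinearMap.det (C.G : E →ₗ[ℝ] E)) := by
      rw [← hfr, mul_add, mul_one, pow_add]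
      ring
    rw [h1, hpar, ← hfr, pow_succ, ← mul_assoc, ← pow_add, ← two_mul, pow_mul]
    norm_num

end

section
variable {E : Type*} [NormedAddCommGroup E] [InnerProductSpace ℝ E] [FiniteDimensional ℝ E]
variable [MeasurableSpace E] [BorelSpace E]

theorem local_null3 (hd : 2 ≤ Module.finrank ℝ E) {Ω : Set E} {g : E ≃ᵃⁱ[ℝ] E}
    (hg : g ⁻¹' Ω = Ω) {n : ℕ} {p u : ℕ → E} (h : OrbitMod Ω g n p u) (m : ℕ) (hm : m ≤ n) :
    ∃ Y : Set (E × E), μH[(2 * Module.finrank ℝ E - 2 : ℕ)] Y = 0 ∧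
      ∀ᶠ w : (ℕ → E) × (ℕ → E) in 𝓝 (p, u), (OrbitMod Ω g n w.1 w.2 ∧
        StrongPath Ω (Orient g n) n w.1 w.2) → (w.1 m, w.2 m) ∈ Y := by
  obtain ⟨a, b, C, ha, hb, hCN, hCg, hLip, hev⟩ := exists_chn2 hg h
  have hfr : Module.finrank ℝ ((ℝ ∙ a)ᗮ × (ℝ ∙ b)ᗮ) = 2 * Module.finrank ℝ E - 2 := by
    have h1 := Submodule.finrank_add_finrank_orthogonal (ℝ ∙ a)
    have h2 := Submodule.finrank_add_finrank_orthogonal (ℝ ∙ b)
    rw [finrank_span_singleton ha] at h1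
    rw [finrank_span_singleton hb] at h2
    rw [Module.finrank_prod]
    omega
  obtain ⟨B, hBA, hBm, hBn, hBg⟩ := C.exists_good
    (μH[Module.finrank ℝ ((ℝ ∙ a)ᗮ × (ℝ ∙ b)ᗮ)]) univ
  rw [hfr] at hBn
  obtain ⟨R, hR⟩ : ∃ R : Set ((ℝ ∙ a)ᗮ × (ℝ ∙ b)ᗮ), R = {z | z ∈ C.A univ ∧ BadD C z} :=
    ⟨_, rfl⟩
  have hRA : μH[(2 * Module.finrank ℝ E - 2 : ℕ)] R = 0 := by
    refine measure_mono_null ?_ hBn
    rw [hR]
    rintro z ⟨hz, hzw⟩
    refine ⟨hz, fun hzB => ?_⟩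
    exact not_badD hd C hz.1 hz.2.2.1 hz.2.2.2.1 (hBg z hzB).1 (hBg z hzB).2.1 (hBg z hzB).2.2 hzw
  obtain ⟨K, hK⟩ := hLip m hm
  refine ⟨(fun z => (C.x m z, C.e m z)) '' R, ?_, ?_⟩
  · have hK' : LipschitzOnWith K (fun z => (C.x m z, C.e m z)) R :=
      hK.mono fun z hz => by rw [hR] at hz; exact hz.1.1
    have h1 := hK'.hausdorffMeasure_image_le
      (d := ((2 * Module.finrank ℝ E - 2 : ℕ) : ℝ)) (Nat.cast_nonneg _)
    rw [hRA, mul_zero] at h1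
    exact nonpos_iff_eq_zero.mp h1
  · filter_upwards [hev] with w hw hor
    obtain ⟨z, hzU, hz1, hz2, hz3⟩ := hw hor.1
    refine ⟨z, ?_, ?_⟩
    swap
    · simp only
      rw [(hz1 m hm).1, (hz1 m hm).2]
    rw [hR]
    refine ⟨⟨hzU, ?_, ?_, hz2, fun k _ hk => absurd (mem_univ k) hk⟩, ?_⟩
    · rw [hCN, (hz1 n le_rfl).1, (hz1 0 (Nat.zero_le _)).1, hCg]
      have := hor.1.perp 0
      rwa [zero_add] at this
    · rw [hCN, (hz1 n le_rfl).2, (hz1 0 (Nat.zero_le _)).2, C.G_apply, hCg]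
      have := hor.1.peru 0
      rwa [zero_add] at this
    -- the strong focusing
    have hunit := unit_steps hor.1.step hor.1.unit
    have hlen : ∀ j < n, C.L j z = side w.1 j := by
      intro j hj
      unfold side
      have h1 := C.step j (by omega) z
      rw [(hz1 (j + 1) hj).1, (hz1 j hj.le).1, (hz1 j hj.le).2] at h1
      have h2 : ‖w.2 j‖ = 1 := by
        have h5 := hunit j
        rw [real_inner_self_eq_norm_sq] at h5
        nlinarith [norm_nonneg (w.2 j)]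
      rw [h1, add_sub_cancel_left, norm_smul, h2, mul_one, Real.norm_eq_abs,
        abs_of_pos (C.Lpos j (by omega) z hzU)]
    have hpos : ∀ k, k + 1 < C.N → 0 < ⟪C.n (k + 1) z, C.e k z⟫_ℝ := by
      intro k hk
      rw [hCN] at hk
      obtain ⟨F, hF, hn, -⟩ := hz3 (k + 1) hk
      rw [hn, (hz1 k (by omega)).2]
      unfold dir
      rw [real_inner_smul_left]
      exact mul_pos (inv_pos.2 (norm_pos_iff.2 hF.grad)) (step_pos (hor.1.step k) hF)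
    have hCF : ∀ k, k + 1 < C.N → ∀ (β : ℝ), FocGe Ω (w.1 (k + 1)) (w.2 (k + 1)) β →
        ∀ a, ⟪C.n (k + 1) z, a⟫_ℝ = 0 → β * (‖a‖ ^ 2 - ⟪C.e k z, a⟫_ℝ ^ 2) ≤
          -(2 * ⟪C.n (k + 1) z, C.e k z⟫_ℝ * ⟪C.S (k + 1) z a, a⟫_ℝ) := by
      intro k hk β h2 a ha
      have hp := hpos k hk
      have hk' := hk
      rw [hCN] at hk'
      obtain ⟨F, hF, hn, hS⟩ := hz3 (k + 1) hk'
      have hc := focGe_def h2 hF
      have hr := C.refl k (by omega) z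
      have hnn := C.nn (k + 1) hk z hzU
      -- the outgoing direction
      have ho : ⟪C.n (k + 1) z, C.e (k + 1) z⟫_ℝ = -⟪C.n (k + 1) z, C.e k z⟫_ℝ := by
        rw [hr]; unfold rf
        rw [inner_sub_right, inner_smul_right, hnn]
        ring
      have he : ⟪C.e (k + 1) z, a⟫_ℝ = ⟪C.e k z, a⟫_ℝ := by
        rw [hr, G3_rf_sym, G3_rf_tan ha]
      have hN : 0 < ‖gradient F (w.1 (k + 1))‖ := norm_pos_iff.2 hF.grad
      have hga : ⟪gradient F (w.1 (k + 1)), a⟫_ℝ = 0 := by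
        rw [hn] at ha
        unfold dir at ha
        rw [real_inner_smul_left] at ha
        exact (mul_eq_zero.1 ha).resolve_left (inv_ne_zero hN.ne')
      have h3 := hc a hga
      have h4 : |⟪gradient F (w.1 (k + 1)), w.2 (k + 1)⟫_ℝ| =
          ‖gradient F (w.1 (k + 1))‖ * ⟪C.n (k + 1) z, C.e k z⟫_ℝ := by
        have h5 : ⟪gradient F (w.1 (k + 1)), w.2 (k + 1)⟫_ℝ =
            ‖gradient F (w.1 (k + 1))‖ * ⟪C.n (k + 1) z, C.e (k + 1) z⟫_ℝ := by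
          rw [hn, (hz1 (k + 1) (by omega)).2]
          unfold dir
          rw [real_inner_smul_left, mul_inv_cancel_left₀ hN.ne']
        rw [h5, ho, abs_mul, abs_of_pos hN, abs_neg, abs_of_pos hp]
      rw [h4, ← (hz1 (k + 1) (by omega)).2, he] at h3
      rw [hS a ha]
      have h6 : ‖gradient F (w.1 (k + 1))‖ ^ 2 * (β * (‖a‖ ^ 2 - ⟪C.e k z, a⟫_ℝ ^ 2)) ≤
          ‖gradient F (w.1 (k + 1))‖ ^ 2 * (-(2 * ⟪C.n (k + 1) z, C.e k z⟫_ℝ *
          -(‖gradient F (w.1 (k + 1))‖⁻¹ * fderiv ℝ (fderiv ℝ F) (w.1 (k + 1)) a a))) := by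
        have h7 : ‖gradient F (w.1 (k + 1))‖ ^ 2 * (-(2 * ⟪C.n (k + 1) z, C.e k z⟫_ℝ *
          -(‖gradient F (w.1 (k + 1))‖⁻¹ * fderiv ℝ (fderiv ℝ F) (w.1 (k + 1)) a a))) =
          2 * (‖gradient F (w.1 (k + 1))‖ * ⟪C.n (k + 1) z, C.e k z⟫_ℝ) *
            fderiv ℝ (fderiv ℝ F) (w.1 (k + 1)) a a := by
          field_simp
        rw [h7]
        linarith [h3]
      exact le_of_mul_le_mul_left h6 (pow_pos hN 2)
    obtain ⟨a', β, ha', hβ, hw2⟩ := hor.2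
    have hres : ∀ k ≤ n, res (fun k => C.L k z) a' k = res (side w.1) a' k := by
      intro k hk
      unfold res
      refine Finset.sum_congr rfl fun j hj => ?_
      beta_reduce
      rw [hlen j (by have := Finset.mem_range.1 hj; omega)]
    refine ⟨a', β, defect w.1 a' β, by rw [hCN]; exact ha', fun k hk => ?_, fun k hk => ?_, ?_⟩
    · exact hCF k hk _ (hβ (k + 1) (Nat.succ_pos k) (by rw [hCN] at hk; exact hk))
    · rw [hCN] at hk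
      refine ⟨le_max_left _ _, ?_⟩
      rw [hlen k (by omega), hlen (k + 1) hk]
      exact le_max_right _ _
    · rw [hCN]
      refine small_congr hres (fun hpar => ?_) hw2
      rw [← hpar, mul_comm]
      congr 2
      apply LinearMap.ext
      intro v
      change C.G v = _
      rw [C.G_apply, hCg]
      rfl

/-- The phase points of the strongly focused trajectories. -/
def Ps (Ω : Set E) (g : E ≃ᵃⁱ[ℝ] E) (n m : ℕ) : Set (E × E) :=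
  (fun w : (ℕ → E) × (ℕ → E) => (w.1 m, w.2 m)) ''
      {w | OrbitMod Ω g n w.1 w.2 ∧ StrongPath Ω (Orient g n) n w.1 w.2}

theorem ps_null (hd : 2 ≤ Module.finrank ℝ E) {Ω : Set E} {g : E ≃ᵃⁱ[ℝ] E}
    (hg : g ⁻¹' Ω = Ω) (n m : ℕ) (hm : m ≤ n) :
    μH[(2 * Module.finrank ℝ E - 2 : ℕ)] (Ps Ω g n m) = 0 := by
  apply null_of_locally_null
  rintro ⟨p, u⟩ ⟨h, -⟩
  exact local_null3 hd hg h m hm

/-- The main theorem. -/
theorem strongPer_null (hd : 2 ≤ Module.finrank ℝ E) (Ω : Set E) (Γ : Set (E ≃ᵃⁱ[ℝ] E))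
    (hΓ : Γ.Countable) (hinv : ∀ g ∈ Γ, g ⁻¹' Ω = Ω) :
    μH[(2 * Module.finrank ℝ E - 2 : ℕ)] (StrongPer Γ Ω) = 0 := by
  refine measure_mono_null (t := ⋃ g ∈ Γ, ⋃ n : ℕ, ⋃ m : ℕ, ⋃ (_ : m ≤ n),
    {z : E × E | (g z.1, g.linearIsometryEquiv z.2) ∈ Ps Ω g n m}) ?_ ?_
  · rintro z ⟨g, hgΓ, n, p, u, i, h, rfl, hin, hw⟩
    refine mem_iUnion₂.2 ⟨g, hgΓ, mem_iUnion.2 ⟨n, mem_iUnion.2 ⟨n - i,
      mem_iUnion.2 ⟨Nat.sub_le _ _, ?_⟩⟩⟩⟩
    refine ⟨(fun k => p (k + i), fun k => u (k + i)), ⟨OrbitMod.shift2 h i, hw⟩, ?_⟩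
    have e : n - i + i = 0 + n := by omega
    simp only [e, h.perp, h.peru]
  · refine (measure_biUnion_null_iff hΓ).2 fun g hgΓ => ?_
    refine measure_iUnion_null fun n => measure_iUnion_null fun m =>
      measure_iUnion_null fun hm => ?_
    exact pull2 g _ _ (ps_null hd (hinv g hgΓ) n m hm)

end

end Pool.Agent.Q66.IV
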