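import Pool.Agent.Q66.IV.IvB

set_option autoImplicit false

open MeasureTheory Set Filter Topology
open scoped InnerProductSpace
open Pool.Agent.H721R2.Quart Pool.Agent.H721R2.Ivrii Pool.Agent.TH746 Pool.Agent.TH318.Iv

namespace Pool.Agent.Q66.IV

section
variable {E : Type*} [NormedAddCommGroup E] [InnerProductSpace ℝ E] [FiniteDimensional ℝ E]

/-- The second derivative along a parabola. -/
theorem parab {Ω : Set E} {q : E} {F : E → ℝ} (h : LocalDef Ω q F) {w m : E} {c : ℝ}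
    (hw : fderiv ℝ F q w = 0) (hneg : fderiv ℝ (fderiv ℝ F) q w w - c * fderiv ℝ F q m < 0) :
    ∀ᶠ t in 𝓝[>] (0 : ℝ), q + t • w - (c * t ^ 2 / 2) • m ∈ Ω := by
  obtain ⟨x, hx⟩ : ∃ x : ℝ → E, x = fun t => q + t • w - (c * t ^ 2 / 2) • m := ⟨_, rfl⟩
  have hx0 : x 0 = q := by rw [hx]; simp
  have hxd : ∀ t, HasDerivAt x (w - (c * t) • m) t := by
    intro t
    rw [hx]
    have h1 : HasDerivAt (fun t : ℝ => t • w) ((1 : ℝ) • w) t := (hasDerivAt_id t).smul_const w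
    have h2 : HasDerivAt (fun t : ℝ => c * t ^ 2 / 2) (c * t) t := by
      have := ((hasDerivAt_pow 2 t).const_mul c).div_const 2
      refine this.congr_deriv ?_
      simp
      ring
    have h3 := (h1.const_add q).sub (h2.smul_const m)
    rw [one_smul] at h3
    exact h3
  have hxc : Tendsto x (𝓝 0) (𝓝 q) := by
    have := (hxd 0).continuousAt.tendsto
    rwa [hx0] at this
  have hF2 : ContDiffAt ℝ 2 (fderiv ℝ F) q := h.smooth.fderiv_right (m := 2) (by norm_num)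
  have hDF : HasFDerivAt (fderiv ℝ F) (fderiv ℝ (fderiv ℝ F) q) q :=
    (hF2.differentiableAt (by norm_num)).hasFDerivAt
  have h1 : HasDerivAt (fun t => fderiv ℝ F (x t)) (fderiv ℝ (fderiv ℝ F) q (w - (c * 0) • m)) 0 := by
    have h2 := hDF
    rw [← hx0] at h2
    have h3 := h2.comp_hasDerivAt (0 : ℝ) (hxd 0)
    rw [hx0] at h3
    exact h3
  have h2 : HasDerivAt (fun t : ℝ => w - (c * t) • m) (-(c • m)) 0 := by
    have h3 : HasDerivAt (fun t : ℝ => c * t) (c * 1) 0 := (hasDerivAt_id (0 : ℝ)).const_mul c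
    rw [mul_one] at h3
    have h4 := (h3.smul_const m).const_sub w
    exact h4
  obtain ⟨ψ, hψ⟩ : ∃ ψ : ℝ → ℝ, ψ = fun t => fderiv ℝ F (x t) (w - (c * t) • m) := ⟨_, rfl⟩
  have h3 : HasDerivAt ψ (fderiv ℝ (fderiv ℝ F) q w w - c * fderiv ℝ F q m) 0 := by
    rw [hψ]
    have h4 := h1.clm_apply h2
    refine h4.congr_deriv ?_
    rw [hx0]
    simp only [mul_zero, zero_smul, sub_zero, map_neg, map_smul, smul_eq_mul]
    ring
  have hψ0 : ψ 0 = 0 := by rw [hψ]; simp only [hx0, mul_zero, zero_smul, sub_zero, hw]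
  -- the sign of the derivative
  have h4 : ∀ᶠ t in 𝓝[>] (0 : ℝ), ψ t < 0 := by
    have hs := h3.hasDerivWithinAt (s := Ioi 0)
    rw [hasDerivWithinAt_iff_tendsto_slope] at hs
    have hdiff : Ioi (0 : ℝ) \ {0} = Ioi 0 := by
      ext t; simp only [Set.mem_sdiff, mem_Ioi, mem_singleton_iff]
      exact ⟨fun h => h.1, fun h => ⟨h, h.ne'⟩⟩
    rw [hdiff] at hs
    have h5 := hs.eventually (gt_mem_nhds hneg)
    filter_upwards [h5, self_mem_nhdsWithin] with t ht ht0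
    have ht0' : (0 : ℝ) < t := ht0
    rw [slope_def_field, hψ0, sub_zero, sub_zero, div_lt_iff₀ ht0', zero_mul] at ht
    exact ht
  have h5 : ∀ᶠ t in 𝓝 (0 : ℝ), DifferentiableAt ℝ F (x t) := by
    have := hxc.eventually (h.smooth.eventually (by norm_num))
    filter_upwards [this] with t ht
    exact ht.differentiableAt (by norm_num)
  have h6 := hxc.eventually h.mem
  obtain ⟨δ, hδ, hδ1⟩ := mem_nhdsGT_iff_exists_Ioo_subset.1 (h4.and
    ((h5.and h6).filter_mono nhdsWithin_le_nhds))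
  have hδ' : (0 : ℝ) < δ := hδ
  refine mem_of_superset (Ioo_mem_nhdsGT hδ') fun t ht => ?_
  have hφ : ∀ s ∈ Ioo 0 δ, HasDerivAt (fun s => F (x s)) (ψ s) s := by
    intro s hs
    have h7 := (hδ1 hs).2.1
    have h8 := h7.hasFDerivAt.comp_hasDerivAt s (hxd s)
    rw [hψ]
    exact h8
  have hcont : ContinuousOn (fun s => F (x s)) (Icc 0 t) := by
    intro s hs
    rcases eq_or_lt_of_le hs.1 with h7 | h7
    · subst h7
      refine ContinuousAt.continuousWithinAt ?_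
      refine ContinuousAt.comp ?_ (hxd 0).continuousAt
      rw [hx0]
      exact h.smooth.continuousAt
    · exact (hφ s ⟨h7, lt_of_le_of_lt hs.2 ht.2⟩).continuousAt.continuousWithinAt
  obtain ⟨ξ, hξ, hξ2⟩ := exists_hasDerivAt_eq_slope (fun s => F (x s)) ψ ht.1 hcont
    (fun s hs => hφ s ⟨hs.1, hs.2.trans ht.2⟩)
  have h9 := (hδ1 (show ξ ∈ Ioo 0 δ from ⟨hξ.1, hξ.2.trans ht.2⟩)).1
  rw [hξ2] at h9
  simp only [hx0, h.zero, sub_zero] at h9
  have h10 : F (x t) < 0 := by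
    by_contra hcon
    exact absurd h9 (not_lt.2 (div_nonneg (not_lt.1 hcon) ht.1.le))
  have h11 := (hδ1 ht).2.2.2 h10
  rw [hx] at h11
  exact h11

/-- The curvature of a table contained in a ball tangent at `q`. -/
theorem curv_outer {Ω : Set E} {q : E} {F : E → ℝ} (h : LocalDef Ω q F) {R : ℝ} (hR : 0 < R)
    (hΩ : Ω ⊆ Metric.closedBall (q - R • dir (gradient F q)) R) {w : E}
    (hw : ⟪gradient F q, w⟫_ℝ = 0) :
    ‖gradient F q‖ * ‖w‖ ^ 2 ≤ R * fderiv ℝ (fderiv ℝ F) q w w := by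
  by_contra hcon
  push Not at hcon
  have hG : 0 < ‖gradient F q‖ := norm_pos_iff.2 h.grad
  obtain ⟨m, hm⟩ : ∃ m, m = dir (gradient F q) := ⟨_, rfl⟩
  have hm1 : ‖m‖ = 1 := by
    rw [hm]; unfold dir
    rw [norm_smul, norm_inv, norm_norm, inv_mul_cancel₀ hG.ne']
  have hmw : ⟪m, w⟫_ℝ = 0 := by
    rw [hm]; unfold dir
    rw [real_inner_smul_left, hw, mul_zero]
  have hFm : fderiv ℝ F q m = ‖gradient F q‖ := by
    rw [G4_fderiv_eq, hm]; unfold dir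
    rw [real_inner_smul_right, real_inner_self_eq_norm_sq]
    field_simp
  have hFw : fderiv ℝ F q w = 0 := by rw [G4_fderiv_eq]; exact hw
  obtain ⟨c, hc1, hc2⟩ : ∃ c, fderiv ℝ (fderiv ℝ F) q w w / ‖gradient F q‖ < c ∧
      c < ‖w‖ ^ 2 / R := by
    apply exists_between
    rw [div_lt_div_iff₀ hG hR]
    linarith
  rw [div_lt_iff₀ hG] at hc1
  rw [lt_div_iff₀ hR] at hc2
  have h1 := parab h (m := m) (c := c) hFw (by rw [hFm]; linarith)
  obtain ⟨t, ht1, ht2⟩ := (h1.and self_mem_nhdsWithin).exists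
  have ht2' : (0 : ℝ) < t := ht2
  have h2 := hΩ ht1
  rw [← hm, Metric.mem_closedBall, dist_eq_norm] at h2
  have h3 : q + t • w - (c * t ^ 2 / 2) • m - (q - R • m) = t • w + (R - c * t ^ 2 / 2) • m := by
    module
  rw [h3] at h2
  have h4 : ‖t • w + (R - c * t ^ 2 / 2) • m‖ ^ 2 ≤ R ^ 2 :=
    pow_le_pow_left₀ (norm_nonneg _) h2 2
  rw [norm_add_sq_real, norm_smul, norm_smul, real_inner_smul_left, real_inner_smul_right,
    real_inner_comm, hmw, hm1, mul_pow, mul_pow, Real.norm_eq_abs, Real.norm_eq_abs, sq_abs,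
    sq_abs] at h4
  have h5 : 0 < t ^ 2 * (‖w‖ ^ 2 - c * R) := mul_pos (pow_pos ht2' 2) (by linarith)
  nlinarith [sq_nonneg (c * t ^ 2 / 2)]

end

/-- In the plane. -/
theorem plane_id {n w u : EuclideanSpace ℝ (Fin 2)} (hn : ‖n‖ = 1) (hw : ⟪n, w⟫_ℝ = 0)
    (hu : ‖u‖ = 1) : ‖w‖ ^ 2 - ⟪u, w⟫_ℝ ^ 2 = ⟪n, u⟫_ℝ ^ 2 * ‖w‖ ^ 2 := by
  have e : ∀ a b : EuclideanSpace ℝ (Fin 2), ⟪a, b⟫_ℝ = a 0 * b 0 + a 1 * b 1 := by
    intro a b
    rw [PiLp.inner_apply, Fin.sum_univ_two]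
    simp [mul_comm]
  have e2 : ∀ a : EuclideanSpace ℝ (Fin 2), ‖a‖ ^ 2 = a 0 ^ 2 + a 1 ^ 2 := by
    intro a
    rw [← real_inner_self_eq_norm_sq, e]
    ring
  have h1 : n 0 ^ 2 + n 1 ^ 2 = 1 := by rw [← e2, hn]; norm_num
  have h2 : u 0 ^ 2 + u 1 ^ 2 = 1 := by rw [← e2, hu]; norm_num
  rw [e] at hw
  rw [e, e, e2]
  -- cross products
  have h3 : u 0 * w 1 - u 1 * w 0 = (n 0 * u 0 + n 1 * u 1) * (n 0 * w 1 - n 1 * w 0) := by
    linear_combination (-(u 0 * w 1 - u 1 * w 0)) * h1 + (n 0 * u 1 - n 1 * u 0) * (-1) * hw * (-1) * (-1)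
  have h4 : (n 0 * w 1 - n 1 * w 0) ^ 2 = w 0 ^ 2 + w 1 ^ 2 := by
    linear_combination (w 0 ^ 2 + w 1 ^ 2) * h1 - (n 0 * w 0 + n 1 * w 1) * hw
  have h5 : (u 0 * w 1 - u 1 * w 0) ^ 2 = (w 0 ^ 2 + w 1 ^ 2) - (u 0 * w 0 + u 1 * w 1) ^ 2 := by
    linear_combination (w 0 ^ 2 + w 1 ^ 2) * h2
  rw [← h5, h3, mul_pow, h4]

end Pool.Agent.Q66.IV
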