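import Pool.Agent.Q66.IV.IvC

set_option autoImplicit false

open MeasureTheory Set Filter Topology
open scoped InnerProductSpace
open Pool.Agent.H721R2.Quart Pool.Agent.H721R2.Ivrii Pool.Agent.TH746 Pool.Agent.TH318.Iv

namespace Pool.Agent.Q66.IV

section
variable {E : Type*} [NormedAddCommGroup E] [InnerProductSpace ℝ E] [CompleteSpace E]

/-- At every regular boundary point the ball of radius `r` tangent to the boundary from inside lies
in the table, and the table lies in the closed ball of radius `R` tangent there. -/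
def Pinched (Ω : Set E) (r R : ℝ) : Prop :=
  ∀ (q : E) (F : E → ℝ), LocalDef Ω q F →
    Metric.ball (q - (r / ‖gradient F q‖) • gradient F q) r ⊆ Ω ∧
      Ω ⊆ Metric.closedBall (q - (R / ‖gradient F q‖) • gradient F q) R

/-- The phase points of the billiard in `Ω` which are periodic with at most `N` bounces in a
period. -/
def PerUpTo (Ω : Set E) (N : ℕ) : Set (E × E) :=
  {z | ∃ (n : ℕ) (p u : ℕ → E), Orbit Ω n p u ∧ (p 0, u 0) = z ∧ n ≤ N}

end

/-- The sum in the estimate. -/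
theorem geom_est {n : ℕ} {K : ℝ} (s l V : ℕ → ℝ) {R d : ℝ} (hR : 0 ≤ R) (hd : 0 ≤ d)
    (hK : 1 ≤ K) (hs : ∀ k, 0 < s k) (hl0 : ∀ k, 0 ≤ l k) (hl : ∀ k, l k ≤ 2 * R * s k)
    (hl' : ∀ k, l (k + 1) ≤ 2 * R * s k) (h1 : ∀ k, s k ≤ K * s (k + 1))
    (h2 : ∀ k, s (k + 1) ≤ K * s k) (hV : ∀ k, V k ≤ d / s k) (hRd : 2 * R * d = 4 * (K - 1))
    (hsum : ∑ k ∈ Finset.range (n + 1), K ^ k < ((n + 1 : ℕ) : ℝ) + 2) :
    (∑ j ∈ Finset.range (n + 1), l j) * ∑ k ∈ Finset.range n, V k < 16 := by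
  have hK0 : 0 ≤ K := by linarith
  have up : ∀ i k, s k ≤ K ^ i * s (k + i) := by
    intro i
    induction i with
    | zero => intro k; simp
    | succ i ih =>
      intro k
      have e1 := ih k
      have e2 := h1 (k + i)
      calc s k ≤ K ^ i * s (k + i) := e1
        _ ≤ K ^ i * (K * s (k + i + 1)) := mul_le_mul_of_nonneg_left e2 (pow_nonneg hK0 _)
        _ = K ^ (i + 1) * s (k + (i + 1)) := by rw [pow_succ, mul_assoc, ← add_assoc]
  have down : ∀ i k, s (k + i) ≤ K ^ i * s k := by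
    intro i
    induction i with
    | zero => intro k; simp
    | succ i ih =>
      intro k
      have e1 := ih k
      have e2 := h2 (k + i)
      calc s (k + (i + 1)) ≤ K * s (k + i) := by rw [← add_assoc]; exact e2
        _ ≤ K * (K ^ i * s k) := mul_le_mul_of_nonneg_left e1 hK0
        _ = K ^ (i + 1) * s k := by rw [pow_succ]; ring
  have key : ∀ k, k < n → ∑ j ∈ Finset.range (n + 1), l j ≤
      2 * R * s k * (∑ i ∈ Finset.range (k + 1), K ^ i + ∑ i ∈ Finset.range (n - k), K ^ i) := by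
    intro k hk
    have e0 : n + 1 = (k + 1) + (n - k) := by omega
    rw [e0, Finset.sum_range_add, mul_add]
    refine add_le_add ?_ ?_
    · rw [← Finset.sum_range_reflect, Finset.mul_sum]
      refine Finset.sum_le_sum fun i hi => ?_
      have hi' := Finset.mem_range.1 hi
      have e1 : k + 1 - 1 - i = k - i := by omega
      rw [e1]
      have e2 := hl (k - i)
      have e3 := up i (k - i)
      have e4 : k - i + i = k := by omega
      rw [e4] at e3
      calc l (k - i) ≤ 2 * R * s (k - i) := e2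
        _ ≤ 2 * R * (K ^ i * s k) := mul_le_mul_of_nonneg_left e3 (by linarith)
        _ = 2 * R * s k * K ^ i := by ring
    · rw [Finset.mul_sum]
      refine Finset.sum_le_sum fun i _ => ?_
      have e2 := hl' (k + i)
      have e3 := down i k
      have e4 : k + 1 + i = k + i + 1 := by omega
      rw [e4]
      calc l (k + i + 1) ≤ 2 * R * s (k + i) := e2
        _ ≤ 2 * R * (K ^ i * s k) := mul_le_mul_of_nonneg_left e3 (by linarith)
        _ = 2 * R * s k * K ^ i := by ring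
  have hT0 : 0 ≤ ∑ j ∈ Finset.range (n + 1), l j := Finset.sum_nonneg fun j _ => hl0 j
  have term : ∀ k ∈ Finset.range n, (∑ j ∈ Finset.range (n + 1), l j) * V k ≤
      4 * ((K ^ (k + 1) - 1) + (K ^ (n - k) - 1)) := by
    intro k hk
    have hk' := Finset.mem_range.1 hk
    have e1 := key k hk'
    have e2 : 0 ≤ d / s k := div_nonneg hd (hs k).le
    calc (∑ j ∈ Finset.range (n + 1), l j) * V k
        ≤ (∑ j ∈ Finset.range (n + 1), l j) * (d / s k) := mul_le_mul_of_nonneg_left (hV k) hT0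
      _ ≤ (2 * R * s k * (∑ i ∈ Finset.range (k + 1), K ^ i + ∑ i ∈ Finset.range (n - k), K ^ i)) *
          (d / s k) := mul_le_mul_of_nonneg_right e1 e2
      _ = 2 * R * d * (∑ i ∈ Finset.range (k + 1), K ^ i + ∑ i ∈ Finset.range (n - k), K ^ i) := by
          have := (hs k).ne'
          field_simp
      _ = 4 * ((K - 1) * ∑ i ∈ Finset.range (k + 1), K ^ i +
          (K - 1) * ∑ i ∈ Finset.range (n - k), K ^ i) := by rw [hRd]; ring
      _ = _ := by rw [mul_geom_sum, mul_geom_sum]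
  have hfin : ∑ k ∈ Finset.range n, 4 * ((K ^ (k + 1) - 1) + (K ^ (n - k) - 1)) =
      8 * (∑ k ∈ Finset.range (n + 1), K ^ k - (n + 1)) := by
    have e1 : ∑ k ∈ Finset.range n, (K ^ (n - k) - 1) = ∑ k ∈ Finset.range n, (K ^ (k + 1) - 1) := by
      rw [← Finset.sum_range_reflect]
      refine Finset.sum_congr rfl fun k hk => ?_
      have hk' := Finset.mem_range.1 hk
      congr 2
      omega
    rw [← Finset.mul_sum, Finset.sum_add_distrib, e1, Finset.sum_sub_distrib,
      Finset.sum_range_succ' (fun k => K ^ k), Finset.sum_const, Finset.card_range]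
    simp only [pow_zero, nsmul_eq_mul, mul_one]
    ring
  rw [Finset.mul_sum]
  calc ∑ k ∈ Finset.range n, (∑ j ∈ Finset.range (n + 1), l j) * V k
      ≤ ∑ k ∈ Finset.range n, 4 * ((K ^ (k + 1) - 1) + (K ^ (n - k) - 1)) :=
        Finset.sum_le_sum term
    _ = 8 * (∑ k ∈ Finset.range (n + 1), K ^ k - (n + 1)) := hfin
    _ < 16 := by
      push_cast at hsum
      linarith

theorem sum_mono {n N : ℕ} {K : ℝ} (hK : 1 ≤ K) (hn : n ≤ N)
    (h : ∑ k ∈ Finset.range N, K ^ k < (N : ℝ) + 2) :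
    ∑ k ∈ Finset.range n, K ^ k < (n : ℝ) + 2 := by
  obtain ⟨m, rfl⟩ := Nat.exists_eq_add_of_le hn
  rw [Finset.sum_range_add] at h
  have h1 : (m : ℝ) ≤ ∑ i ∈ Finset.range m, K ^ (n + i) := by
    have h2 : ∑ i ∈ Finset.range m, (1 : ℝ) ≤ ∑ i ∈ Finset.range m, K ^ (n + i) :=
      Finset.sum_le_sum fun i _ => one_le_pow₀ hK
    simpa using h2
  push_cast at h
  linarith

section
variable {E : Type*} [NormedAddCommGroup E] [InnerProductSpace ℝ E] [FiniteDimensional ℝ E]

/-- The geometry of one bounce. -/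
theorem bounce {Ω : Set E} {r R : ℝ} (hr : 0 < r) {q q' u : E} {F : E → ℝ}
    (hF : LocalDef Ω q F) (hin : Metric.ball (q - r • dir (gradient F q)) r ⊆ Ω)
    (hout : Ω ⊆ Metric.closedBall (q - R • dir (gradient F q)) R) {t : ℝ} (ht : 0 < t)
    (hu : ‖u‖ = 1) (hq : q' = q + t • u) (hq' : q' ∉ Ω) (hseg : ∀ s ∈ Ioo 0 t, q + s • u ∈ Ω) :
    2 * r * (-⟪dir (gradient F q), u⟫_ℝ) ≤ t ∧ t ≤ 2 * R * (-⟪dir (gradient F q), u⟫_ℝ) := by
  have hG : 0 < ‖gradient F q‖ := norm_pos_iff.2 hF.grad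
  obtain ⟨m, hm⟩ : ∃ m, m = dir (gradient F q) := ⟨_, rfl⟩
  have hm1 : ‖m‖ = 1 := by
    rw [hm]; unfold dir
    rw [norm_smul, norm_inv, norm_norm, inv_mul_cancel₀ hG.ne']
  have hcalc : ∀ s ρ : ℝ, ‖q + s • u - (q - ρ • m)‖ ^ 2 = s ^ 2 + 2 * s * ρ * ⟪m, u⟫_ℝ + ρ ^ 2 := by
    intro s ρ
    have h1 : q + s • u - (q - ρ • m) = s • u + ρ • m := by module
    rw [h1, norm_add_sq_real, norm_smul, norm_smul, hu, hm1, real_inner_smul_left,
      real_inner_smul_right, real_inner_comm]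
    simp only [mul_one, Real.norm_eq_abs, sq_abs]
    ring
  rw [← hm] at hin hout ⊢
  constructor
  · by_contra hcon
    push Not at hcon
    apply hq'
    apply hin
    rw [Metric.mem_ball, dist_eq_norm, hq]
    have h1 := hcalc t r
    have h2 : ‖q + t • u - (q - r • m)‖ ^ 2 < r ^ 2 := by
      rw [h1]
      nlinarith
    exact lt_of_pow_lt_pow_left₀ 2 hr.le h2
  · have h1 : ∀ s ∈ Ioo 0 t, s ≤ 2 * R * (-⟪m, u⟫_ℝ) := by
      intro s hs
      have h2 := hout (hseg s hs)
      rw [Metric.mem_closedBall, dist_eq_norm] at h2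
      have h3 : ‖q + s • u - (q - R • m)‖ ^ 2 ≤ R ^ 2 := pow_le_pow_left₀ (norm_nonneg _) h2 2
      rw [hcalc] at h3
      have h4 : s * s ≤ s * (2 * R * (-⟪m, u⟫_ℝ)) := by nlinarith
      exact le_of_mul_le_mul_left h4 hs.1
    by_contra hcon
    push Not at hcon
    rcases le_or_gt (2 * R * (-⟪m, u⟫_ℝ)) 0 with h5 | h5
    · have := h1 (t / 2) ⟨by linarith, by linarith⟩
      linarith
    · have := h1 ((2 * R * (-⟪m, u⟫_ℝ) + t) / 2) ⟨by linarith, by linarith⟩
      linarith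

end

/-- **Pinched tables.** -/
theorem pinched_sub (Ω : Set (EuclideanSpace ℝ (Fin 2))) (r R : ℝ) (N : ℕ) (hr : 0 < r)
    (hrR : r ≤ R) (hK : ∑ k ∈ Finset.range N, (R / r) ^ k < (N : ℝ) + 2) (h : Pinched Ω r R) :
    PerUpTo Ω N ⊆ StrongPer {AffineIsometryEquiv.refl ℝ (EuclideanSpace ℝ (Fin 2))} Ω := by
  rintro z ⟨n, p, u, ho, hz, hn⟩
  have hR : 0 < R := lt_of_lt_of_le hr hrR
  have hK1 : 1 ≤ R / r := by rw [le_div_iff₀ hr]; linarith
  have hunit := unit_steps ho.step ho.unit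
  have hu1 : ∀ k, ‖u k‖ = 1 := by
    intro k
    have h5 := hunit k
    rw [real_inner_self_eq_norm_sq] at h5
    nlinarith [norm_nonneg (u k)]
  have hFx : ∀ k, ∃ F, LocalDef Ω (p (k + 1)) F := by
    intro k
    obtain ⟨t, -, -, -, F, hF, -⟩ := ho.step k
    exact ⟨F, hF⟩
  choose F hF using hFx
  -- the boundary points are not in the table
  have hnot : ∀ k, p k ∉ Ω := by
    have h1 : ∀ k, p (k + 1) ∉ Ω := by
      intro k hk
      have h2 := (hF k).mem.self_of_nhds.1 hk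
      rw [(hF k).zero] at h2
      exact lt_irrefl _ h2
    intro k
    rw [← ho.perp k]
    obtain ⟨m, hm⟩ : ∃ m, k + n = m + 1 := ⟨k + n - 1, by have := ho.pos; omega⟩
    rw [hm]
    exact h1 m
  obtain ⟨m, hm⟩ : ∃ m : ℕ → EuclideanSpace ℝ (Fin 2),
      ∀ k, m k = dir (gradient (F k) (p (k + 1))) := ⟨_, fun k => rfl⟩
  have hGp : ∀ k, 0 < ‖gradient (F k) (p (k + 1))‖ := fun k => norm_pos_iff.2 (hF k).grad
  have hm1 : ∀ k, ‖m k‖ = 1 := by
    intro k
    rw [hm]; unfold dir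
    rw [norm_smul, norm_inv, norm_norm, inv_mul_cancel₀ (hGp k).ne']
  obtain ⟨s, hs⟩ : ∃ s : ℕ → ℝ, ∀ k, s k = ⟪m k, u k⟫_ℝ := ⟨_, fun k => rfl⟩
  have hs0 : ∀ k, 0 < s k := by
    intro k
    rw [hs, hm]; unfold dir
    rw [real_inner_smul_left]
    exact mul_pos (inv_pos.2 (hGp k)) (step_pos (ho.step k) (hF k))
  have hs' : ∀ k, ⟪m k, u (k + 1)⟫_ℝ = -s k := by
    intro k
    rw [(step_refl' (ho.step k) (hF k)).1, ← hm, hs]
    unfold rf
    rw [inner_sub_right, inner_smul_right, real_inner_self_eq_norm_sq, hm1]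
    ring
  have hpin : ∀ k, Metric.ball (p (k + 1) - r • m k) r ⊆ Ω ∧
      Ω ⊆ Metric.closedBall (p (k + 1) - R • m k) R := by
    intro k
    obtain ⟨h1, h2⟩ := h _ _ (hF k)
    rw [hm]; unfold dir
    rw [smul_smul, smul_smul, ← div_eq_mul_inv, ← div_eq_mul_inv]
    exact ⟨h1, h2⟩
  have hst : ∀ k, 0 < side p k ∧ p (k + 1) = p k + side p k • u k ∧
      ∀ x ∈ Ioo 0 (side p k), p k + x • u k ∈ Ω := by
    intro k
    obtain ⟨t, ht, hq, hin, -⟩ := ho.step k
    have e1 : side p k = t := by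
      unfold side
      rw [hq, add_sub_cancel_left, norm_smul, hu1, mul_one, Real.norm_eq_abs, abs_of_pos ht]
    rw [e1]
    exact ⟨ht, hq, hin⟩
  -- outgoing
  have hout : ∀ k, 2 * r * s k ≤ side p (k + 1) ∧ side p (k + 1) ≤ 2 * R * s k := by
    intro k
    obtain ⟨h1, h2, h3⟩ := hst (k + 1)
    obtain ⟨h4, h5⟩ := hpin k
    rw [hm] at h4 h5
    have h6 := bounce hr (hF k) h4 h5 h1 (hu1 (k + 1)) h2 (hnot _) h3
    rw [← hm, hs', neg_neg] at h6
    exact h6
  -- incoming
  have hinc : ∀ k, 2 * r * s k ≤ side p k ∧ side p k ≤ 2 * R * s k := by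
    intro k
    obtain ⟨h1, h2, h3⟩ := hst k
    obtain ⟨h4, h5⟩ := hpin k
    rw [hm] at h4 h5
    have h6 := bounce hr (hF k) h4 h5 h1 (q' := p k) (u := -u k) (by rw [norm_neg, hu1 k])
      (by rw [h2]; module) (hnot _) (by
        intro x hx
        have h7 := h3 (side p k - x) ⟨by linarith [hx.2], by linarith [hx.1]⟩
        have h8 : p (k + 1) + x • -u k = p k + (side p k - x) • u k := by
          rw [h2]; module
        rw [h8]
        exact h7)
    rw [← hm, inner_neg_right, neg_neg, ← hs] at h6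
    exact h6
  -- the ratios
  have hr1 : ∀ k, s k ≤ R / r * s (k + 1) := by
    intro k
    have h1 := (hout k).1
    have h2 := (hinc (k + 1)).2
    rw [div_mul_eq_mul_div, le_div_iff₀ hr]
    linarith
  have hr2 : ∀ k, s (k + 1) ≤ R / r * s k := by
    intro k
    have h1 := (hout k).2
    have h2 := (hinc (k + 1)).1
    rw [div_mul_eq_mul_div, le_div_iff₀ hr]
    linarith
  -- the focusing
  have hfoc : ∀ k, FocGe Ω (p (k + 1)) (u (k + 1)) (2 / (R * s k)) := by
    intro k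
    refine ⟨F k, hF k, fun w hw => ?_⟩
    have h1 := curv_outer (hF k) hR (by rw [← hm]; exact (hpin k).2) hw
    have h2 : ⟪m k, w⟫_ℝ = 0 := by
      rw [hm]; unfold dir
      rw [real_inner_smul_left, hw, mul_zero]
    rw [plane_id (hm1 k) h2 (hu1 (k + 1)), hs', neg_sq]
    have h3 : |⟪gradient (F k) (p (k + 1)), u (k + 1)⟫_ℝ| =
        ‖gradient (F k) (p (k + 1))‖ * s k := by
      have h4 : ⟪gradient (F k) (p (k + 1)), u (k + 1)⟫_ℝ =
          ‖gradient (F k) (p (k + 1))‖ * ⟪m k, u (k + 1)⟫_ℝ := by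
        rw [hm]; unfold dir
        rw [real_inner_smul_left, mul_inv_cancel_left₀ (hGp k).ne']
      rw [h4, hs', abs_mul, abs_of_pos (hGp k), abs_neg, abs_of_pos (hs0 k)]
    rw [h3]
    have h5 := hs0 k
    have h6 := hGp k
    have h7 : 2 / (R * s k) * ‖gradient (F k) (p (k + 1))‖ ^ 2 * (s k ^ 2 * ‖w‖ ^ 2) =
        (2 * ‖gradient (F k) (p (k + 1))‖ * s k / R) *
          (‖gradient (F k) (p (k + 1))‖ * ‖w‖ ^ 2) := by
      field_simp
    have h8 : 2 * (‖gradient (F k) (p (k + 1))‖ * s k) *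
        fderiv ℝ (fderiv ℝ (F k)) (p (k + 1)) w w =
        (2 * ‖gradient (F k) (p (k + 1))‖ * s k / R) *
          (R * fderiv ℝ (fderiv ℝ (F k)) (p (k + 1)) w w) := by
      field_simp
    rw [h7, h8]
    exact mul_le_mul_of_nonneg_left h1 (by positivity)
  obtain ⟨β, hβ⟩ : ∃ β : ℕ → ℝ, β = fun k => 2 / (R * s (k - 1)) := ⟨_, rfl⟩
  obtain ⟨n', rfl⟩ : ∃ n', n = n' + 1 := ⟨n - 1, by have := ho.pos; omega⟩
  refine ⟨AffineIsometryEquiv.refl ℝ _, mem_singleton _, n' + 1, p, u, 0,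
    ⟨ho.pos, ho.unit, fun k => ?_, fun k => ?_, ho.step⟩, hz, ho.pos, fun _ => 1, β,
    fun _ _ => one_pos, ?_, small_tot ?_ (fun k _ _ => le_max_left _ _) ?_⟩
  · rw [ho.perp]; rfl
  · rw [ho.peru]; rfl
  · intro k hk _
    obtain ⟨j, rfl⟩ : ∃ j, k = j + 1 := ⟨k - 1, by omega⟩
    rw [hβ]
    exact hfoc j
  · unfold Orient
    have h1 : ((AffineIsometryEquiv.refl ℝ (EuclideanSpace ℝ (Fin 2))).linearIsometryEquiv.toLinearEquiv :
        EuclideanSpace ℝ (Fin 2) →ₗ[ℝ] EuclideanSpace ℝ (Fin 2)) = LinearMap.id := by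
      apply LinearMap.ext
      intro v
      rfl
    rw [h1, LinearMap.det_id, finrank_euclideanSpace_fin, mul_comm (n' + 1) 2, pow_mul]
    norm_num
  · have h1 : res (side fun k => p (k + 0)) (fun _ => 1) (n' + 1) =
        ∑ j ∈ Finset.range (n' + 1), side p j := by
      unfold res
      refine Finset.sum_congr rfl fun j _ => ?_
      simp only [mul_one, div_one]
      rfl
    have h2 : ∑ k ∈ Finset.Ioo 0 (n' + 1), defect (fun k => p (k + 0)) (fun _ => 1) β k =
        ∑ k ∈ Finset.range n', defect p (fun _ => 1) β (k + 1) := by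
      have h3 : Finset.Ioo 0 (n' + 1) = Finset.Ico 1 (n' + 1) := by
        ext j; simp only [Finset.mem_Ioo, Finset.mem_Ico]; omega
      rw [h3, Finset.sum_Ico_eq_sum_range]
      refine Finset.sum_congr rfl fun k _ => ?_
      rw [add_comm]
      rfl
    rw [h1, h2]
    have hinv : 0 ≤ 1 / r - 1 / R := by
      rw [sub_nonneg]
      exact one_div_le_one_div_of_le hr hrR
    refine geom_est (K := R / r) (R := R) (d := 2 * (1 / r - 1 / R)) s (side p)
      (fun k => defect p (fun _ => 1) β (k + 1)) hR.le (by linarith) hK1 hs0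
      (fun k => (hst k).1.le) (fun k => (hinc k).2) (fun k => (hout k).2) hr1 hr2 ?_ ?_
      (sum_mono hK1 hn hK)
    · intro k
      refine max_le (div_nonneg (by linarith) (hs0 k).le) ?_
      rw [hβ]
      simp only [one_mul, mul_one, Nat.add_sub_cancel]
      have h4 : (1 + 1) / side p k ≤ 1 / (r * s k) := by
        rw [div_le_div_iff₀ (hst k).1 (mul_pos hr (hs0 k))]
        linarith [(hinc k).1]
      have h5 : (1 + 1) / side p (k + 1) ≤ 1 / (r * s k) := by
        rw [div_le_div_iff₀ (hst (k + 1)).1 (mul_pos hr (hs0 k))]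
        linarith [(hout k).1]
      have h6 : 2 * (1 / r - 1 / R) / s k = 1 / (r * s k) + 1 / (r * s k) - 2 / (R * s k) := by
        have := (hs0 k).ne'
        field_simp
        ring
      rw [h6]
      linarith
    · field_simp
      ring

theorem pinched_null (Ω : Set (EuclideanSpace ℝ (Fin 2))) (r R : ℝ) (N : ℕ) (hr : 0 < r)
    (hrR : r ≤ R) (hK : ∑ k ∈ Finset.range N, (R / r) ^ k < (N : ℝ) + 2) (h : Pinched Ω r R) :
    μH[2] (PerUpTo Ω N) = 0 := by
  have h1 := strongPer_null (E := EuclideanSpace ℝ (Fin 2)) (by rw [finrank_euclideanSpace_fin]) Ω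
    {AffineIsometryEquiv.refl ℝ (EuclideanSpace ℝ (Fin 2))} (countable_singleton _) (by
      intro g hg
      rw [mem_singleton_iff.1 hg]
      rfl)
  rw [finrank_euclideanSpace_fin] at h1
  norm_num at h1
  exact measure_mono_null (pinched_sub Ω r R N hr hrR hK h) h1

end Pool.Agent.Q66.IV
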