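import Pool.Agent.Q66.IV.IvB

set_option autoImplicit false

open MeasureTheory Set Filter Topology
open scoped InnerProductSpace
open Pool.Agent.H721R2.Quart Pool.Agent.H721R2.Ivrii Pool.Agent.TH746 Pool.Agent.TH318.Iv

namespace Pool.Agent.Q66.IV

variable {E : Type*} [NormedAddCommGroup E] [InnerProductSpace ℝ E] [FiniteDimensional ℝ E]

/-- Every transversal bounce is focusing at least by some (negative) number. -/
theorem exists_focGe {Ω : Set E} {q u : E} {F : E → ℝ} (hF : LocalDef Ω q F) (hu : ‖u‖ = 1)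
    (h : ⟪gradient F q, u⟫_ℝ ≠ 0) : ∃ β, FocGe Ω q u β := by
  obtain ⟨G, hG⟩ : ∃ G, G = gradient F q := ⟨_, rfl⟩
  rw [← hG] at h
  have hG0 : G ≠ 0 := by rw [hG]; exact hF.grad
  have hN : 0 < ‖G‖ := norm_pos_iff.2 hG0
  obtain ⟨c, hc⟩ : ∃ c, c = |⟪G, u⟫_ℝ| := ⟨_, rfl⟩
  have hc0 : 0 < c := by rw [hc]; exact abs_pos.2 h
  obtain ⟨S, hS⟩ : ∃ S, S = fderiv ℝ (fderiv ℝ F) q := ⟨_, rfl⟩
  refine ⟨-(2 * ‖S‖ / c), F, hF, fun w hw => ?_⟩
  rw [← hG, ← hc, ← hS]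
  rw [← hG] at hw
  have h1 : |S w w| ≤ ‖S‖ * ‖w‖ * ‖w‖ := by
    rw [← Real.norm_eq_abs]; exact S.le_opNorm₂ w w
  have h2 : c ^ 2 * ‖w‖ ^ 2 ≤ ‖G‖ ^ 2 * (‖w‖ ^ 2 - ⟪u, w⟫_ℝ ^ 2) := by
    -- projection of `u` on the tangent space
    obtain ⟨u', hu'⟩ : ∃ u', u' = (‖G‖ ^ 2) • u - ⟪G, u⟫_ℝ • G := ⟨_, rfl⟩
    have e1 : ⟪u', w⟫_ℝ = ‖G‖ ^ 2 * ⟪u, w⟫_ℝ := by
      rw [hu', inner_sub_left, real_inner_smul_left, real_inner_smul_left, hw, mul_zero, sub_zero]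
    have e2 : ‖u'‖ ^ 2 = ‖G‖ ^ 2 * (‖G‖ ^ 2 - ⟪G, u⟫_ℝ ^ 2) := by
      rw [hu', norm_sub_sq_real, norm_smul, norm_smul, real_inner_smul_left,
        real_inner_smul_right, hu, real_inner_comm G u, mul_pow, mul_pow, Real.norm_eq_abs,
        Real.norm_eq_abs, sq_abs, sq_abs]
      ring
    have e3 := abs_real_inner_le_norm u' w
    have e4 : ⟪u', w⟫_ℝ ^ 2 ≤ ‖u'‖ ^ 2 * ‖w‖ ^ 2 := by
      rw [← sq_abs, ← mul_pow]
      exact pow_le_pow_left₀ (abs_nonneg _) e3 2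
    rw [e1, e2, hc, sq_abs] at *
    have e5 : 0 < ‖G‖ ^ 2 := pow_pos hN 2
    have e6 : ‖G‖ ^ 2 * (‖G‖ ^ 2 * ⟪u, w⟫_ℝ ^ 2) ≤
        ‖G‖ ^ 2 * ((‖G‖ ^ 2 - ⟪G, u⟫_ℝ ^ 2) * ‖w‖ ^ 2) := by nlinarith
    have e7 := le_of_mul_le_mul_left e6 e5
    nlinarith
  have h3 : -(2 * ‖S‖ / c) * ‖G‖ ^ 2 * (‖w‖ ^ 2 - ⟪u, w⟫_ℝ ^ 2) =
      -((2 * ‖S‖ / c) * (‖G‖ ^ 2 * (‖w‖ ^ 2 - ⟪u, w⟫_ℝ ^ 2))) := by ring
  have h4 : (2 * ‖S‖ / c) * (c ^ 2 * ‖w‖ ^ 2) ≤
      (2 * ‖S‖ / c) * (‖G‖ ^ 2 * (‖w‖ ^ 2 - ⟪u, w⟫_ℝ ^ 2)) :=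
    mul_le_mul_of_nonneg_left h2 (by positivity)
  have h5 : (2 * ‖S‖ / c) * (c ^ 2 * ‖w‖ ^ 2) = 2 * c * (‖S‖ * ‖w‖ * ‖w‖) := by
    field_simp
  have h6 := neg_le_of_abs_le h1
  rw [h3]
  nlinarith

theorem unit_all {Ω : Set E} {g : E ≃ᵃⁱ[ℝ] E} {n : ℕ} {p u : ℕ → E} (ho : OrbitMod Ω g n p u)
    (k : ℕ) : ‖u k‖ = 1 := by
  have h5 := unit_steps ho.step ho.unit k
  rw [real_inner_self_eq_norm_sq] at h5
  nlinarith [norm_nonneg (u k)]

theorem side_pos {Ω : Set E} {g : E ≃ᵃⁱ[ℝ] E} {n : ℕ} {p u : ℕ → E} (ho : OrbitMod Ω g n p u)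
    (k : ℕ) : 0 < side p k := by
  obtain ⟨t, ht, hq, -⟩ := ho.step k
  unfold side
  rw [hq, add_sub_cancel_left, norm_smul, unit_all ho, mul_one, Real.norm_eq_abs, abs_of_pos ht]
  exact ht

theorem some_foc {Ω : Set E} {g : E ≃ᵃⁱ[ℝ] E} {n : ℕ} {p u : ℕ → E} (ho : OrbitMod Ω g n p u)
    (k : ℕ) (hk : 0 < k) : ∃ β, FocGe Ω (p k) (u k) β := by
  obtain ⟨j, rfl⟩ : ∃ j, k = j + 1 := ⟨k - 1, by omega⟩
  have hs := ho.step j
  obtain ⟨t, -, -, -, F, hF, -⟩ := ho.step j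
  refine exists_focGe hF (unit_all ho _) ?_
  have h1 := step_pos hs hF
  rw [(step_refl' hs hF).1]
  have hN : 0 < ‖gradient F (p (j + 1))‖ := norm_pos_iff.2 hF.grad
  have h2 : ⟪gradient F (p (j + 1)), rf (dir (gradient F (p (j + 1)))) (u j)⟫_ℝ =
      -⟪gradient F (p (j + 1)), u j⟫_ℝ := by
    unfold rf dir
    rw [inner_sub_right, inner_smul_right, real_inner_smul_left, inner_smul_right,
      real_inner_self_eq_norm_sq]
    field_simp
    ring
  rw [h2]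
  exact (neg_lt_zero.2 h1).ne

theorem few_sub3 {Ω : Set E} {Γ : Set (E ≃ᵃⁱ[ℝ] E)} : FewWeak Γ Ω ⊆ StrongPer Γ Ω := by
  rintro z ⟨g, hg, n, p, u, a, i, j, ho, hz, ha, hi, hcase⟩
  have hn := ho.pos
  have hside := side_pos ho
  classical
  obtain ⟨b, hb⟩ : ∃ b : ℕ → ℝ, ∀ k, b k =
      ((a (k - 1) + a k) / side p (k - 1) + (a k + a (k + 1)) / side p k) / a k :=
    ⟨_, fun k => rfl⟩
  choose f hf using some_foc ho
  obtain ⟨β, hβ⟩ : ∃ β : ℕ → ℝ, β = fun k => if h : 0 < k then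
      (if StrongAt Ω p u a k then b k else f k h) else 0 := ⟨_, rfl⟩
  have hfoc : ∀ k, 0 < k → FocGe Ω (p k) (u k) (β k) := by
    intro k hk
    rw [hβ]
    simp only [dif_pos hk]
    by_cases h1 : StrongAt Ω p u a k
    · rw [if_pos h1, hb]
      exact h1
    · rw [if_neg h1]
      exact hf k hk
  have hdef : ∀ k, 0 < k → StrongAt Ω p u a (k + i) →
      defect (fun k => p (k + i)) (fun k => a (k + i)) (fun k => β (k + i)) k = 0 := by
    intro k hk h1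
    unfold defect side
    rw [hβ]
    have h2 : 0 < k + i := by omega
    simp only [dif_pos h2, if_pos h1]
    have e1 : k - 1 + i = k + i - 1 := by omega
    have e2 : k - 1 + 1 + i = k + i := by omega
    have e3 : k + 1 + i = k + i + 1 := by omega
    rw [e1, e2, e3, hb]
    unfold side
    have e4 : k + i - 1 + 1 = k + i := by omega
    rw [e4, div_mul_cancel₀ _ (ha (k + i)).ne', sub_self, mul_zero, max_self]
  refine ⟨g, hg, n, p, u, i, ho, hz, hi, fun k => a (k + i), fun k => β (k + i),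
    fun k _ => ha _, fun k hk _ => hfoc _ (by omega), ?_⟩
  have hmod : ∀ k, 0 < k → k < n → (k + i) % n ≠ i := by
    intro k h1 h2 h3
    rcases Nat.lt_or_ge (k + i) n with h4 | h4
    · rw [Nat.mod_eq_of_lt h4] at h3
      omega
    · have h5 : (k + i) % n = k + i - n := by
        rw [Nat.mod_eq_sub_mod h4, Nat.mod_eq_of_lt (by omega)]
      omega
  rcases hcase with hc | ⟨hpar, hc⟩
  · refine small_zero ?_ fun k hk1 hk2 => hdef k hk1 (hc _ (by omega) (hmod k hk1 hk2))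
    unfold res
    refine Finset.sum_pos (fun k _ => ?_) (Finset.nonempty_range_iff.2 (by omega))
    refine div_pos ?_ (mul_pos (ha _) (ha _))
    unfold side
    have := hside (k + i)
    unfold side at this
    have e3 : k + 1 + i = k + i + 1 := by omega
    beta_reduce
    rw [e3]
    exact this
  · refine small_one hpar (if i < j then j - i else j + n - i) fun k hk1 hk2 hk3 =>
      hdef k hk1 (hc _ (by omega) (hmod k hk1 hk2) ?_)
    intro h3
    apply hk3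
    rcases Nat.lt_or_ge (k + i) n with h4 | h4
    · rw [Nat.mod_eq_of_lt h4] at h3
      rw [if_pos (by omega)]
      omega
    · have h5 : (k + i) % n = k + i - n := by
        rw [Nat.mod_eq_sub_mod h4, Nat.mod_eq_of_lt (by omega)]
      rw [if_neg (by omega)]
      omega

theorem tot_sub3 {Ω : Set E} {Γ : Set (E ≃ᵃⁱ[ℝ] E)} : TotDef Γ Ω ⊆ StrongPer Γ Ω := by
  rintro z ⟨g, hg, n, p, u, i, β, ho, hz, hi, hβ, hcase⟩
  have hside := side_pos ho
  refine ⟨g, hg, n, p, u, i, ho, hz, hi, fun _ => 1, β, fun _ _ => one_pos, hβ, ?_⟩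
  have e0 : ∀ k, side (fun k => p (k + i)) k = side p (k + i) := by
    intro k
    unfold side
    have e3 : k + 1 + i = k + i + 1 := by omega
    simp only [e3]
  have h1 : ∀ m, res (side fun k => p (k + i)) (fun _ => 1) m =
      ∑ k ∈ Finset.range m, side p (k + i) := by
    intro m
    unfold res
    exact Finset.sum_congr rfl fun k _ => by rw [e0]; simp
  have h2 : ∑ k ∈ Finset.Ioo 0 n, defect (fun k => p (k + i)) (fun _ => 1) β k =
      ∑ k ∈ Finset.Ioo 0 n, max 0 (2 / side p (k + i - 1) + 2 / side p (k + i) - β k) := by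
    refine Finset.sum_congr rfl fun k hk => ?_
    rw [Finset.mem_Ioo] at hk
    unfold defect
    rw [e0, e0]
    have e1 : k - 1 + i = k + i - 1 := by omega
    rw [e1, one_mul, mul_one, one_add_one_eq_two]
  have hV : ∀ k, 0 ≤ defect (fun k => p (k + i)) (fun _ => 1) β k := fun k => le_max_left _ _
  rcases hcase with hc | ⟨hpar, hc⟩
  · refine Or.inl ?_
    rw [← h1 n, ← h2] at hc
    have hS : 0 < res (side fun k => p (k + i)) (fun _ => 1) n := by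
      rw [h1]
      exact Finset.sum_pos (fun k _ => hside _) (Finset.nonempty_range_iff.2 (by have := ho.pos; omega))
    obtain ⟨S, hSd⟩ : ∃ S, S = res (side fun k => p (k + i)) (fun _ => 1) n := ⟨_, rfl⟩
    rw [← hSd] at hc hS ⊢
    calc ∑ k ∈ Finset.Ioo 0 n, defect (fun k => p (k + i)) (fun _ => 1) β k *
          (res (side fun k => p (k + i)) (fun _ => 1) k *
            (S - res (side fun k => p (k + i)) (fun _ => 1) k))
        ≤ ∑ k ∈ Finset.Ioo 0 n, defect (fun k => p (k + i)) (fun _ => 1) β k * (S * S / 4) := by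
          refine Finset.sum_le_sum fun k _ => mul_le_mul_of_nonneg_left ?_ (hV k)
          nlinarith [sq_nonneg (res (side fun k => p (k + i)) (fun _ => 1) k - S / 2)]
      _ = S / 4 * (S * ∑ k ∈ Finset.Ioo 0 n, defect (fun k => p (k + i)) (fun _ => 1) β k) := by
          rw [← Finset.sum_mul]; ring
      _ < S / 4 * 4 := mul_lt_mul_of_pos_left hc (by linarith)
      _ = S := by ring
  · refine small_tot hpar (fun k _ _ => hV k) ?_
    rw [h1, h2]
    exact hc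

end Pool.Agent.Q66.IV
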